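import Pool.Agent.H73.KAF.RST

/-!
# Regular laws and stabilisation

`Reg p f h e`: the values of `f` on the support of `p` are at most `exp (h + e)` many, and each of
them has probability at most `exp (-(h - e))`. This is inherited by events which are not too small
(`Reg.cond`), every finite list of variables is regular on the classes of a partition with few
classes (`exists_type`), and bounded functionals of events can be stabilised (`stab`).
-/

set_option autoImplicit false

namespace Pool.KAL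

open Finset Real
open Pool.Agent.H49.Ent Pool.Agent.H32.Dense Pool.STK Pool.KAF

variable {Ω S T : Type} [Fintype Ω]

/-- Regular variables. -/
structure Reg (p : Ω → ℝ) (f : Ω → S) (h e : ℝ) : Prop where
  supp : ∃ F : Finset S, (F.card : ℝ) ≤ Real.exp (h + e) ∧ ∀ ω, 0 < p ω → f ω ∈ F
  prob : ∀ s, law p f s ≤ Real.exp (-(h - e))

/-- Heredity of regularity. -/
theorem Reg.cond {p : Ω → ℝ} (hp : IsLaw p) {f : Ω → S} {h e a : ℝ} (hf : Reg p f h e)
    (Z : Ω → T) (z : T) (ha : 0 ≤ a) (hz : Real.exp (-a) ≤ law p Z z) :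
    Reg (Pool.Agent.H49.Ent.cond p Z z) f h (e + a) := by
  have hz0 : 0 < law p Z z := lt_of_lt_of_le (Real.exp_pos _) hz
  refine ⟨?_, ?_⟩
  · obtain ⟨F, h1, h2⟩ := hf.supp
    refine ⟨F, h1.trans (Real.exp_le_exp.2 (by linarith)), fun ω hω => h2 ω ?_⟩
    exact ((cond_pos_iff hp.nonneg Z z ω).1 hω).1
  · intro s
    rw [law_cond, div_le_iff₀ hz0]
    refine (law_pair_le hp.nonneg f Z s z).trans ((hf.prob s).trans ?_)
    calc Real.exp (-(h - e)) = Real.exp (-(h - (e + a))) * Real.exp (-a) := by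
          rw [← Real.exp_add]; congr 1; ring
      _ ≤ Real.exp (-(h - (e + a))) * law p Z z :=
          mul_le_mul_of_nonneg_left hz (Real.exp_pos _).le

theorem Reg.mono {p : Ω → ℝ} {f : Ω → S} {h e e' : ℝ} (hf : Reg p f h e) (he : e ≤ e') :
    Reg p f h e' := by
  obtain ⟨F, h1, h2⟩ := hf.supp
  exact ⟨⟨F, h1.trans (Real.exp_le_exp.2 (by linarith)), h2⟩,
    fun s => (hf.prob s).trans (Real.exp_le_exp.2 (by linarith))⟩

/-- The entropy of a regular variable, upper bound. -/
theorem Reg.H_le {p : Ω → ℝ} (hp : IsLaw p) {f : Ω → S} {h e : ℝ} (hf : Reg p f h e) :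
    H p f ≤ h + e := by
  obtain ⟨F, h1, h2⟩ := hf.supp
  have h3 := H_le_log_card hp.nonneg hp.sum_one f F h2
  refine h3.trans ?_
  rcases Nat.eq_zero_or_pos F.card with hF | hF
  · exfalso
    have h5 : ∀ ω, p ω = 0 := by
      intro ω
      by_contra h0
      have := h2 ω (lt_of_le_of_ne (hp.nonneg ω) (Ne.symm h0))
      rw [Finset.card_eq_zero] at hF
      simp [hF] at this
    have h4 := hp.sum_one
    simp [h5] at h4
  · calc Real.log F.card ≤ Real.log (Real.exp (h + e)) := Real.log_le_log (by exact_mod_cast hF) h1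
      _ = h + e := Real.log_exp _

/-- The entropy of a regular variable, lower bound. -/
theorem Reg.le_H {p : Ω → ℝ} (hp : IsLaw p) {f : Ω → S} {h e : ℝ} (hf : Reg p f h e) :
    h - e ≤ H p f := by
  have h1 : ∀ ω, p ω * (h - e) ≤ -(p ω * Real.log (law p f (f ω))) := by
    intro ω
    by_cases h0 : p ω = 0
    · simp [h0]
    · have hω : 0 < p ω := lt_of_le_of_ne (hp.nonneg ω) (Ne.symm h0)
      have h2 : Real.log (law p f (f ω)) ≤ -(h - e) := by
        have := Real.log_le_log (law_pos hp.nonneg f hω) (hf.prob (f ω))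
        rwa [Real.log_exp] at this
      nlinarith
  have h2 : ∑ ω, p ω * (h - e) = h - e := by
    rw [← Finset.sum_mul, hp.sum_one, one_mul]
  calc h - e = ∑ ω, p ω * (h - e) := h2.symm
    _ ≤ ∑ ω, -(p ω * Real.log (law p f (f ω))) := Finset.sum_le_sum fun ω _ => h1 ω
    _ = H p f := by unfold H; rw [Finset.sum_neg_distrib]

/-- The class of the probability of the value of `f`. -/
noncomputable def cls (p : Ω → ℝ) (f : Ω → S) (e : ℝ) (K : ℕ) (ω : Ω) : Fin (K + 1) :=
  ⟨min ⌊-Real.log (law p f (f ω)) / e⌋₊ K, by omega⟩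

/-- On a class, `f` is regular. -/
theorem cls_reg {p : Ω → ℝ} (hp : IsLaw p) (f : Ω → S) {e L : ℝ} (he : 0 < e) {K : ℕ}
    (hK : L ≤ K * e) (hf : ∃ F : Finset S, (F.card : ℝ) ≤ Real.exp L ∧ ∀ ω, 0 < p ω → f ω ∈ F)
    (Z : Ω → T) (z : T) (hz : Real.exp (-e) ≤ law p Z z)
    (hZ : ∀ ω ω', Z ω = z → Z ω' = z → cls p f e K ω = cls p f e K ω') :
    ∃ h, Reg (Pool.Agent.H49.Ent.cond p Z z) f h e := by
  classical
  have hz0 : 0 < law p Z z := lt_of_lt_of_le (Real.exp_pos _) hz
  obtain ⟨ω₀, h0, h0'⟩ : ∃ ω, 0 < p ω ∧ Z ω = z := by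
    by_contra hcon
    push Not at hcon
    have : law p Z z = 0 := by
      unfold law
      refine Finset.sum_eq_zero fun ω _ => ?_
      by_cases h : Z ω = z
      · have h1 : ¬ 0 < p ω := fun h2 => hcon ω h2 h
        simp [h, le_antisymm (not_lt.1 h1) (hp.nonneg ω)]
      · simp [h]
    exact hz0.ne' this
  set k : ℕ := (cls p f e K ω₀ : ℕ) with hk
  have hkeq : ∀ ω, Z ω = z → (min ⌊-Real.log (law p f (f ω)) / e⌋₊ K : ℕ) = k := by
    intro ω hω
    have := hZ ω ω₀ hω h0'
    have h2 := congrArg Fin.val this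
    exact h2
  have hlow : ∀ ω, 0 < p ω → Z ω = z → law p f (f ω) ≤ Real.exp (-(k * e)) := by
    intro ω hω hωz
    have h1 := hkeq ω hωz
    have hl := law_pos hp.nonneg f hω
    have hl1 : law p f (f ω) ≤ 1 := (law_le_total hp.nonneg _ _).trans hp.sum_one.le
    have h2 : (k : ℝ) ≤ -Real.log (law p f (f ω)) / e := by
      have h3 : k ≤ ⌊-Real.log (law p f (f ω)) / e⌋₊ := by omega
      have h4 : 0 ≤ -Real.log (law p f (f ω)) / e :=
        div_nonneg (neg_nonneg.2 (Real.log_nonpos hl.le hl1)) he.le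
      exact (Nat.cast_le.2 h3).trans (Nat.floor_le h4)
    rw [le_div_iff₀ he] at h2
    rw [← Real.log_le_iff_le_exp hl]
    linarith
  refine ⟨k * e, ?_, ?_⟩
  · rcases lt_or_ge k K with hlt | hge
    · refine ⟨univ.filter (fun ω => 0 < p ω ∧ Z ω = z) |>.image f, ?_, ?_⟩
      · have hup : ∀ ω, 0 < p ω → Z ω = z → Real.exp (-(k * e + e)) ≤ law p f (f ω) := by
          intro ω hω hωz
          have h1 := hkeq ω hωz
          have hl := law_pos hp.nonneg f hω
          have h3 : ⌊-Real.log (law p f (f ω)) / e⌋₊ = k := by omega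
          have h4 := Nat.lt_floor_add_one (-Real.log (law p f (f ω)) / e)
          rw [h3, div_lt_iff₀ he] at h4
          rw [← Real.le_log_iff_exp_le hl]
          nlinarith
        set F := (univ.filter (fun ω => 0 < p ω ∧ Z ω = z)).image f with hF
        have h5 : ∑ s ∈ F, Real.exp (-(k * e + e)) ≤ ∑ s ∈ F, law p f s := by
          refine Finset.sum_le_sum fun s hs => ?_
          obtain ⟨ω, hω, rfl⟩ := Finset.mem_image.1 hs
          rw [Finset.mem_filter] at hω
          exact hup ω hω.2.1 hω.2.2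
        have h6 : ∑ s ∈ F, law p f s ≤ 1 := by
          have h7 : ∑ s ∈ univ.image f, law p f s = ∑ ω, p ω := sum_law p f
          rw [← hp.sum_one, ← h7]
          refine Finset.sum_le_sum_of_subset_of_nonneg ?_ fun s _ _ => law_nonneg hp.nonneg f s
          exact Finset.image_subset_image (Finset.filter_subset _ _)
        rw [Finset.sum_const, nsmul_eq_mul] at h5
        have h8 : (F.card : ℝ) * Real.exp (-(k * e + e)) ≤ 1 := h5.trans h6
        calc (F.card : ℝ) = F.card * Real.exp (-(k * e + e)) * Real.exp (k * e + e) := by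
              rw [mul_assoc, ← Real.exp_add]; simp
          _ ≤ 1 * Real.exp (k * e + e) := mul_le_mul_of_nonneg_right h8 (Real.exp_pos _).le
          _ = Real.exp (k * e + e) := one_mul _
      · intro ω hω
        have h1 := (cond_pos_iff hp.nonneg Z z ω).1 hω
        exact Finset.mem_image.2 ⟨ω, by simp [h1.1, h1.2], rfl⟩
    · obtain ⟨F, h1, h2⟩ := hf
      refine ⟨F, h1.trans (Real.exp_le_exp.2 ?_), fun ω hω =>
        h2 ω ((cond_pos_iff hp.nonneg Z z ω).1 hω).1⟩
      have h3 : (K : ℝ) ≤ k := by exact_mod_cast hge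
      nlinarith
  · intro s
    by_cases hs : ∃ ω, 0 < p ω ∧ Z ω = z ∧ f ω = s
    · obtain ⟨ω, hω, hωz, rfl⟩ := hs
      rw [law_cond, div_le_iff₀ hz0]
      refine (law_pair_le hp.nonneg f Z _ z).trans ((hlow ω hω hωz).trans ?_)
      calc Real.exp (-(k * e)) = Real.exp (-(k * e - e)) * Real.exp (-e) := by
            rw [← Real.exp_add]; congr 1; ring
        _ ≤ Real.exp (-(k * e - e)) * law p Z z :=
            mul_le_mul_of_nonneg_left hz (Real.exp_pos _).le
    · have h1 : law (Pool.Agent.H49.Ent.cond p Z z) f s = 0 := by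
        unfold law
        refine Finset.sum_eq_zero fun ω _ => ?_
        split_ifs with h
        · by_contra h2
          have h3 : 0 < Pool.Agent.H49.Ent.cond p Z z ω :=
            lt_of_le_of_ne (cond_nonneg hp.nonneg Z z ω) (Ne.symm h2)
          rw [cond_pos_iff hp.nonneg] at h3
          exact hs ⟨ω, h3.1, h3.2, h⟩
        · rfl
      rw [h1]
      exact (Real.exp_pos _).le

/-- **Types.** For a finite list of variables with at most `exp L` values there is a partition with
at most `(K + 1) ^ n` classes (`L ≤ K e`), such that all variables are regular, with error `e`, on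
every class of probability at least `exp (-e)`. -/
theorem exists_type {n : ℕ} {S : Fin n → Type} {p : Ω → ℝ} (hp : IsLaw p)
    (f : ∀ i, Ω → S i) {e L : ℝ} (he : 0 < e) {K : ℕ} (hK : L ≤ K * e)
    (hf : ∀ i, ∃ F : Finset (S i), (F.card : ℝ) ≤ Real.exp L ∧ ∀ ω, 0 < p ω → f i ω ∈ F) :
    ∃ τ : Ω → Fin n → Fin (K + 1), ∀ v, Real.exp (-e) ≤ law p τ v →
      ∀ i, ∃ h, Reg (Pool.Agent.H49.Ent.cond p τ v) (f i) h e := by
  refine ⟨fun ω i => cls p (f i) e K ω, fun v hv i => ?_⟩
  refine cls_reg hp (f i) he hK (hf i) _ v hv fun ω ω' h h' => ?_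
  have h1 := congrFun h i
  have h2 := congrFun h' i
  exact h1.trans h2.symm

/-- **Stabilisation.** A bounded functional of events has a stable event: all sub-events which are
not too small have almost the same or a larger value. -/
theorem stab {p : Ω → ℝ} (hp : IsLaw p) (Φ : Set Ω → ℝ) {S δ : ℝ} (hδ : 0 < δ)
    (h0 : ∀ A, 0 ≤ Φ A) (hS : Φ Set.univ ≤ S) (κ : ℕ → ℝ) :
    ∃ (n : ℕ) (A : Set Ω), (n : ℝ) * δ ≤ S ∧
      Real.exp (-(∑ i ∈ range n, κ i)) ≤ Pr p A ∧ Φ A ≤ S - n * δ ∧
      ∀ B ⊆ A, Real.exp (-κ n) * Pr p A ≤ Pr p B → Φ A - δ < Φ B := by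
  by_contra hcon
  push Not at hcon
  have key : ∀ n : ℕ, ∃ A : Set Ω, Real.exp (-(∑ i ∈ range n, κ i)) ≤ Pr p A ∧
      Φ A ≤ S - n * δ := by
    intro n
    induction n with
    | zero =>
      refine ⟨Set.univ, ?_, by simpa using hS⟩
      have h1 : Pr p (Set.univ : Set Ω) = 1 := by
        classical
        rw [Pr_eq]
        simp [hp.sum_one]
      simp [h1]
    | succ n ih =>
      obtain ⟨A, hA1, hA2⟩ := ih
      have hn : (n : ℝ) * δ ≤ S := by
        have := h0 A
        linarith
      obtain ⟨B, -, hB1, hB2⟩ := hcon n A hn hA1 hA2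
      refine ⟨B, ?_, ?_⟩
      · refine le_trans ?_ hB1
        rw [Finset.sum_range_succ, neg_add, Real.exp_add, mul_comm]
        exact mul_le_mul_of_nonneg_left hA1 (Real.exp_pos _).le
      · push_cast
        linarith
  obtain ⟨n, hn⟩ := exists_nat_gt (S / δ)
  obtain ⟨A, -, hA⟩ := key n
  rw [div_lt_iff₀ hδ] at hn
  have := h0 A
  linarith

/-- **Pair events give sub-families.** If two conditionally independent samples with the same `V`
agree in `c` with probability `β`, then on an event of probability `β` the label `c` is a function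
of `V`. -/
theorem pair_event {κ : Type} {p : Ω → ℝ} (hp : IsLaw p) (V : Ω → S) (c : Ω → κ) {β : ℝ}
    (hβ : β ≤ ∑ ω, p ω * cp p c V ω) :
    ∃ g : S → κ, β ≤ Pr p {ω | c ω = g (V ω)} := by
  classical
  have hne : Nonempty Ω := by
    by_contra h
    rw [not_nonempty_iff] at h
    have := hp.sum_one
    simp at this
  obtain ⟨ω₀⟩ := hne
  -- the most popular value
  have hmax : ∀ s : S, ∃ k : κ, ∀ k' : κ, law p (fun ω => (c ω, V ω)) (k', s) ≤
      law p (fun ω => (c ω, V ω)) (k, s) := by
    intro s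
    obtain ⟨ω₁, -, h1⟩ := Finset.exists_max_image (univ : Finset Ω)
      (fun ω => law p (fun ω => (c ω, V ω)) (c ω, s)) ⟨ω₀, Finset.mem_univ _⟩
    refine ⟨c ω₁, fun k' => ?_⟩
    by_cases hk : ∃ ω, c ω = k'
    · obtain ⟨ω, rfl⟩ := hk
      exact h1 ω (Finset.mem_univ _)
    · have : law p (fun ω => (c ω, V ω)) (k', s) = 0 := by
        unfold law
        refine Finset.sum_eq_zero fun ω _ => ?_
        rw [if_neg]
        intro h
        exact hk ⟨ω, congrArg Prod.fst h⟩
      rw [this]
      exact law_nonneg hp.nonneg _ _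
  choose g hg using hmax
  refine ⟨g, hβ.trans ?_⟩
  have h2 : ∑ ω, p ω * cp p c V ω ≤
      ∑ ω, p ω * (law p (fun ω => (c ω, V ω)) (g (V ω), V ω) / law p V (V ω)) := by
    refine Finset.sum_le_sum fun ω _ => mul_le_mul_of_nonneg_left ?_ (hp.nonneg ω)
    unfold cp
    exact div_le_div_of_nonneg_right (hg _ _) (law_nonneg hp.nonneg _ _)
  refine h2.trans (le_of_eq ?_)
  rw [sum_mul_eq_sum_image p V
    (fun s => law p (fun ω => (c ω, V ω)) (g s, s) / law p V s)]
  have h3 : ∀ s ∈ univ.image V, law p V s * (law p (fun ω => (c ω, V ω)) (g s, s) / law p V s) =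
      law p (fun ω => (c ω, V ω)) (g s, s) := by
    intro s _
    by_cases h0 : law p V s = 0
    · have h4 := law_pair_le' hp.nonneg c V (g s) s
      have h5 := law_nonneg hp.nonneg (fun ω => (c ω, V ω)) (g s, s)
      rw [h0] at h4
      rw [h0, le_antisymm h4 h5]
      simp
    · field_simp
  rw [Finset.sum_congr rfl h3, Pr_eq]
  unfold law
  rw [Finset.sum_comm]
  refine Finset.sum_congr rfl fun ω _ => ?_
  rw [Finset.sum_eq_single (V ω)]
  · simp [Prod.ext_iff]
  · intro s _ hs
    rw [if_neg]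
    intro h
    exact hs (congrArg Prod.snd h).symm
  · intro h
    exact absurd (Finset.mem_image_of_mem V (Finset.mem_univ ω)) h

end Pool.KAL
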