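import Pool.Agent.H56.KAF.Defs

/-!
# Auxiliary lemmas: Remez inequalities on grids, interpolation on dense subsets of grids, copies
-/

set_option autoImplicit false

namespace Pool.KAL

open Finset Real MeasureTheory
open Pool.Agent.H49.Ent Pool.Agent.H32.Dense Pool.STK Pool.KAF

/-- Remez inequality for sets of integers. -/
def RMGStmt : Prop :=
  ∀ (k s : ℕ) (P : Polynomial ℝ) (E : Finset ℤ) (t B M : ℝ), P.natDegree ≤ k → 1 ≤ s →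
    s * k + 1 ≤ E.card → (∀ e ∈ E, |t - (e : ℝ)| ≤ B) → (∀ e ∈ E, |P.eval (e : ℝ)| ≤ M) →
    |P.eval t| ≤ ((k : ℝ) + 1) * (B / s) ^ k * M

/-- Remez inequality for sets of positive measure. -/
def RMMStmt : Prop :=
  ∀ k : ℕ, ∃ C : ℝ, 0 < C ∧ ∀ (P : Polynomial ℝ) (a b ρ R M : ℝ) (E : Set ℝ),
    P.natDegree ≤ k → a < b → 0 < ρ → ρ ≤ 1 → 1 ≤ R → MeasurableSet E → E ⊆ Set.Icc a b →
    ENNReal.ofReal (ρ * (b - a)) ≤ volume E → (∀ x ∈ E, |P.eval x| ≤ M) →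
    ∀ t : ℝ, |t - a| ≤ R * (b - a) → |P.eval t| ≤ C * (R / ρ) ^ k * M

/-- Small values of a polynomial. -/
def SUBLStmt : Prop :=
  ∀ k : ℕ, 1 ≤ k → ∃ C : ℝ, 0 < C ∧ ∀ (P : Polynomial ℝ) (a b ε : ℝ), P.natDegree ≤ k →
    a < b → 0 ≤ ε → (∃ x ∈ Set.Icc a b, 1 ≤ |P.eval x|) →
      volume {x ∈ Set.Icc a b | |P.eval x| ≤ ε ^ k} ≤ ENNReal.ofReal (C * ε * (b - a))

/-- A polynomial is rarely small compared with its derivative. -/
def DERStmt : Prop :=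
  ∀ (k : ℕ) (P : Polynomial ℝ) (ε : ℝ), P.natDegree ≤ k → 0 ≤ ε → P ≠ 0 →
    volume {x : ℝ | |P.eval x| ≤ ε * |P.derivative.eval x|} ≤
      ENNReal.ofReal (2 * (k : ℝ) ^ 2 * ε)

/-- Gibbs: a law with small entropy deficit gives small mass to small sets. -/
def GIBStmt : Prop :=
  ∀ (Ω S : Type) [Fintype Ω] (p : Ω → ℝ) (T : Ω → S) (F E : Finset S) (e β : ℝ), IsLaw p →
    (∀ ω, T ω ∈ F) → E ⊆ F → 0 < β → β ≤ Pr p {ω | T ω ∈ E} → Real.log F.card - e ≤ H p T →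
    Real.exp (-((e + Real.log 2) / β)) * F.card ≤ E.card

/-- Conditional deficits: the lines on which the time is far from uniform, or on which an event is
rare, are few. -/
def CDFStmt : Prop :=
  ∀ (Ω S V : Type) [Fintype Ω] (p : Ω → ℝ) (T : Ω → S) (L : Ω → V) (F : Finset S) (A : Set Ω)
    (e β : ℝ), IsLaw p → (∀ ω, T ω ∈ F) → 0 ≤ e → 0 < β → β ≤ Pr p A →
    Real.log F.card - e ≤ CH p T L →
    β / 4 ≤ Pr p {ω | Real.log F.card - 4 * e / β ≤ H (Pool.Agent.H49.Ent.cond p L (L ω)) T ∧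
      β / 2 ≤ Pr (Pool.Agent.H49.Ent.cond p L (L ω)) A}

/-- **Remez inequality for random times.** If the time is uniform up to a deficit `e` given the
label `L`, and the polynomial attached to the label is small at the time of the sample with
probability `β`, then with probability `β / 4` it is small everywhere. -/
def RMEStmt : Prop :=
  ∀ k : ℕ, ∃ C : ℝ, 1 ≤ C ∧ ∀ (Ω V : Type) [Fintype Ω] (p : Ω → ℝ) (N : ℕ) (T : Ω → ℕ)
    (L : Ω → V) (P : V → Polynomial ℝ) (M : V → ℝ) (e β R : ℝ), IsLaw p → (∀ ω, T ω < N) →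
    (∀ v, (P v).natDegree ≤ k) → 0 ≤ e → 0 < β → β ≤ 1 → 1 ≤ R →
    Real.log N - e ≤ CH p T L → C * Real.exp (C * (e + 1) / β ^ 2) ≤ N →
    β ≤ Pr p {ω | |(P (L ω)).eval (T ω : ℝ)| ≤ M (L ω)} →
    β / 4 ≤ Pr p {ω | ∀ t : ℝ, |t| ≤ R * N →
      |(P (L ω)).eval t| ≤ (C * R * Real.exp (C * (e + 1) / β ^ 2)) ^ k * M (L ω)}

/-- Remez inequality in several variables, on a grid. -/
def RMNStmt : Prop :=
  ∀ n k : ℕ, ∃ C : ℕ, 1 ≤ C ∧ ∀ (N : ℕ) (P : MvPolynomial (Fin n) ℝ) (ρ R M : ℝ),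
    (∀ i, P.degreeOf i ≤ k) → 0 < ρ → ρ ≤ 1 → (C : ℝ) ≤ ρ ^ C * N → 1 ≤ R → 0 ≤ M →
    ρ * (N : ℝ) ^ n ≤ ((univ.filter fun x : Fin n → Fin N =>
      |MvPolynomial.eval (fun i => ((x i : ℕ) : ℝ)) P| ≤ M).card : ℝ) →
    ∀ y : Fin n → ℝ, (∀ i, |y i| ≤ R * N) →
      |MvPolynomial.eval y P| ≤ C * (R / ρ) ^ C * M

/-- Counting grids in a dense set: for `r` choices in every coordinate. -/
def BXCStmt : Prop :=
  ∀ (n r N : ℕ) (X : Finset (Fin n → Fin N)) (σ : ℝ), 1 ≤ N → 0 ≤ σ → σ * (N : ℝ) ^ n ≤ X.card →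
    σ ^ (r ^ n) * (N : ℝ) ^ (n * r) ≤ ((univ.filter fun y : Fin n → Fin r → Fin N =>
      ∀ c : Fin n → Fin r, (fun i => y i (c i)) ∈ X).card : ℝ)

/-- Interpolation on one grid. -/
def BXIStmt : Prop :=
  ∀ n k : ℕ, ∃ C : ℝ, 1 ≤ C ∧ ∀ (B : Fin n → Fin (k + 1) → ℝ) (f : (Fin n → ℝ) → ℝ) (s N : ℝ),
    0 < s → s ≤ N → (∀ i a b, a ≠ b → s ≤ |B i a - B i b|) →
    ∃ Q : MvPolynomial (Fin n) ℝ, (∀ i, Q.degreeOf i ≤ k) ∧ ∀ (x : Fin n → ℝ) (E : ℝ), 0 ≤ E →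
      (∀ i a, |x i - B i a| ≤ N) →
      (∀ (i : Fin n) (z : Fin n → ℝ), (∀ j, z j = x j ∨ ∃ a, z j = B j a) →
        ∃ P : Polynomial ℝ, P.natDegree ≤ k ∧ ∀ y : ℝ, (y = x i ∨ ∃ a, y = B i a) →
          |f (Function.update z i y) - P.eval y| ≤ E) →
      |f x - MvPolynomial.eval x Q| ≤ C * (N / s) ^ (n * k) * E

/-- **Box lemma.** A function on a dense subset of a grid which is a polynomial up to `E` on every
line parallel to an axis is a polynomial on a dense subset, with controlled losses. -/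
def BOXStmt : Prop :=
  ∀ n k : ℕ, ∃ C : ℕ, 1 ≤ C ∧ ∀ (N : ℕ) (X : Finset (Fin n → Fin N))
    (f : (Fin n → Fin N) → ℝ) (σ E : ℝ), 0 < σ → σ ≤ 1 → 0 ≤ E → (C : ℝ) ≤ σ ^ C * N →
    σ * (N : ℝ) ^ n ≤ X.card →
    (∀ (i : Fin n) (z : Fin n → Fin N), ∃ P : Polynomial ℝ, P.natDegree ≤ k ∧
      ∀ y : Fin N, Function.update z i y ∈ X →
        |f (Function.update z i y) - P.eval ((y : ℕ) : ℝ)| ≤ E) →
    ∃ Q : MvPolynomial (Fin n) ℝ, (∀ i, Q.degreeOf i ≤ k) ∧ ∃ X' ⊆ X,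
      σ ^ C * (N : ℝ) ^ n ≤ C * X'.card ∧
      ∀ x ∈ X', |f x - MvPolynomial.eval (fun i => ((x i : ℕ) : ℝ)) Q| ≤ C * (1 / σ) ^ C * E

/-- Two copies of a label, conditionally independent given the line and the place. -/
def CPYStmt : Prop :=
  ∀ (Ω A B V : Type) [Fintype Ω] (p : Ω → ℝ) (l : Ω → A) (x : Ω → B) (z : Ω → V) (c : ℝ),
    IsLaw p → CH p l x - CH p l (fun ω => (z ω, x ω)) ≤ c →
    CH (dbl p (fun ω => (l ω, x ω))) (fun w => l w.1) (fun w => x w.1) -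
      CH (dbl p (fun ω => (l ω, x ω))) (fun w => l w.1) (fun w => ((z w.1, z w.2), x w.1)) ≤ 2 * c

end Pool.KAL
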