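import Pool.Agent.H56.KAL.Stmts

/-!
# Auxiliary lemmas, second part: Remez inequalities in the mean, roots, jets
-/

set_option autoImplicit false

namespace Pool.KAL

open Finset Real MeasureTheory
open Pool.Agent.H49.Ent Pool.Agent.H32.Dense Pool.STK Pool.KAF

/-- Gibbs variational inequality for the uniform law on a finite set. -/
def GVIStmt : Prop :=
  ∀ (Ω S : Type) [Fintype Ω] (p : Ω → ℝ) (T : Ω → S) (F : Finset S) (f : S → ℝ), IsLaw p →
    (∀ ω, T ω ∈ F) →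
    Ex p (fun ω => f (T ω)) ≤ Real.log F.card - H p T +
      Real.log ((∑ s ∈ F, Real.exp (f s)) / F.card)

/-- **Remez inequality in the mean**, one variable: the constant in front of the deficit is
`2 D`. -/
def RIMStmt : Prop :=
  ∀ D : ℕ, ∃ C : ℝ, 0 ≤ C ∧ ∀ (Ω : Type) [Fintype Ω] (p : Ω → ℝ) (N : ℕ) (T : Ω → ℕ)
    (P : Polynomial ℝ) (S : ℝ), IsLaw p → (∀ ω, T ω < N) → P.natDegree ≤ D → 0 < S →
    (∃ s ∈ Set.Icc (0 : ℝ) 1, S ≤ |P.eval s|) →
    Real.log S - 2 * D * ((Real.log N - H p T) + C) ≤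
      Ex p (fun ω => Real.log (max |P.eval ((T ω : ℝ) / N)| (S / N ^ D)))

/-- Remez inequality in the mean, several variables. -/
def RINStmt : Prop :=
  ∀ n D : ℕ, ∃ C : ℕ, ∀ (Ω : Type) [Fintype Ω] (p : Ω → ℝ) (N : ℕ) (Y : Ω → Fin n → Fin N)
    (P : MvPolynomial (Fin n) ℝ) (S : ℝ), IsLaw p → (∀ i, P.degreeOf i ≤ D) → 0 < S →
    (∃ s : Fin n → ℝ, (∀ i, s i ∈ Set.Icc (0 : ℝ) 1) ∧ S ≤ |MvPolynomial.eval s P|) →
    Real.log S - C * ((n * Real.log N - H p Y) + 1) ≤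
      Ex p (fun ω => Real.log (max
        |MvPolynomial.eval (fun i => ((Y ω i : ℕ) : ℝ) / N) P| (S / (N : ℝ) ^ C)))

/-- The points where a polynomial is small and its derivative is not small lie in few short
intervals. -/
def IN4Stmt : Prop :=
  ∀ (k : ℕ) (P : Polynomial ℝ) (ε a : ℝ), P.natDegree ≤ k → 0 ≤ ε → 0 < a →
    ∃ F : Finset ℝ, F.card ≤ 2 * k ∧
      ∀ x, |P.eval x| ≤ ε → a ≤ |P.derivative.eval x| → ∃ c ∈ F, |x - c| ≤ 2 * ε / a

/-- Counting jets: polynomials of degree `D` in `n + 1` variables whose restriction to a graph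
vanishes to order `j`. -/
def JETStmt : Prop :=
  ∀ (n D j : ℕ), (j + n).choose n < (D + n + 1).choose (n + 1) →
    ∀ (G : MvPolynomial (Fin n) ℝ) (y₀ : Fin n → ℝ), ∃ P : MvPolynomial (Option (Fin n)) ℝ,
      P ≠ 0 ∧ P.totalDegree ≤ D ∧ ∀ α : Fin n →₀ ℕ, α.degree ≤ j →
        MvPolynomial.coeff α (MvPolynomial.bind₁ (fun o : Option (Fin n) =>
          o.elim (MvPolynomial.bind₁ (fun i => MvPolynomial.X i + MvPolynomial.C (y₀ i)) G)
            (fun i => MvPolynomial.X i + MvPolynomial.C (y₀ i))) P) = 0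

/-- A polynomial without terms of degree at most `j` is small near the origin. -/
def TAYStmt : Prop :=
  ∀ (n K j : ℕ), ∃ C : ℝ, 0 ≤ C ∧ ∀ (R : MvPolynomial (Fin n) ℝ) (r M : ℝ),
    R.totalDegree ≤ K → (∀ α : Fin n →₀ ℕ, α.degree ≤ j → MvPolynomial.coeff α R = 0) →
    0 ≤ r → r ≤ 1 → (∀ y : Fin n → ℝ, (∀ i, |y i| ≤ 1) → |MvPolynomial.eval y R| ≤ M) →
    ∀ y : Fin n → ℝ, (∀ i, |y i| ≤ r) → |MvPolynomial.eval y R| ≤ C * r ^ (j + 1) * M

/-- If a polynomial and all its derivatives in the last variable vanish on a graph over a set of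
points, then it vanishes on the vertical lines over this set. -/
def VERStmt : Prop :=
  ∀ (n : ℕ) (P : MvPolynomial (Option (Fin n)) ℝ) (y : Fin n → ℝ) (z : ℝ),
    (∀ i : ℕ, MvPolynomial.eval (fun o : Option (Fin n) => o.elim z y)
      ((MvPolynomial.pderiv (none : Option (Fin n)))^[i] P) = 0) →
    ∀ z' : ℝ, MvPolynomial.eval (fun o : Option (Fin n) => o.elim z' y) P = 0

end Pool.KAL
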