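import Pool.Agent.H56.KAL.Stmts2

/-!
# Auxiliary lemmas, third part: the Cauchy equation on an interval, uniform variables
-/

set_option autoImplicit false

namespace Pool.KAL

open Finset Real MeasureTheory
open Pool.Agent.H49.Ent Pool.Agent.H32.Dense Pool.STK Pool.KAF

/-- **Cauchy equation on an interval, almost all pairs.** The increments of `β` depend, up to `ρ`
and for all but a fraction `ε` of the pairs, only on the length of the step: then they are linear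
in the length of the step. -/
def CAUStmt : Prop :=
  ∃ ε₀ > 0, ∃ C : ℝ, 1 ≤ C ∧ ∀ (N M : ℕ) (β F : ℕ → ℝ) (ρ ε : ℝ), 0 < M → 2 * M ≤ N → 0 ≤ ρ →
    0 ≤ ε → ε ≤ ε₀ →
    ((((range N) ×ˢ (range M)).filter fun a => ρ < |β (a.1 + a.2) - β a.1 - F a.2|).card : ℝ) ≤
      ε * (N * M) →
    ∃ B : ℝ, (((range M).filter fun h => C * ρ < |F h - B * h|).card : ℝ) ≤ C * ε * M

/-- **Cauchy equation on an interval, second part**: also `β` is linear, if the exceptional pairs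
are rare compared with the ratio of the two intervals. -/
def CABStmt : Prop :=
  ∃ ε₀ > 0, ∃ C : ℝ, 1 ≤ C ∧ ∀ (N M : ℕ) (β F : ℕ → ℝ) (ρ ε : ℝ), 2 ≤ M → 2 * M ≤ N → 0 ≤ ρ →
    0 ≤ ε → ε * N ≤ ε₀ * M →
    ((((range N) ×ˢ (range M)).filter fun a => ρ < |β (a.1 + a.2) - β a.1 - F a.2|).card : ℝ) ≤
      ε * (N * M) →
    ∃ A B : ℝ, (((range M).filter fun h => C * ρ < |F h - B * h|).card : ℝ) ≤ C * ε * M ∧
      (((range N).filter fun y => C * ρ * N / M < |β y - A - B * y|).card : ℝ) ≤ C * ε * N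

/-- An affine image of a uniform variable has large entropy, given everything else. -/
def UNIStmt : Prop :=
  ∀ (Ω ζ : Type) [Fintype Ω] (p : Ω → ℝ) (N : ℕ) (Y : Ω → ℕ) (Z : Ω → ζ) (a δ : ℝ) (g : ζ → ℝ)
    (n : Ω → ℤ), IsLaw p → 0 < N → (∀ ω, Y ω < N) → Real.log N - δ ≤ CH p Y Z → a ≠ 0 →
    |a| ≤ 1 → (∀ ω, n ω = ⌊a * Y ω + g (Z ω)⌋) →
    Real.log (|a| * N) - δ - Real.log 2 ≤ CH p n Z

end Pool.KAL
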